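import Mathlib

/-!
# `B_h` sets of given size in cyclic groups: the order of `g(m,h)` in `h`

For `m ≥ 2` and `h ≥ 1` the set `{0, 1, h+1, (h+1)², …, (h+1)^(m-2)}` is a `B_h` set of size `m` in
`ZMod n` for every `n > h (h+1)^(m-2)`.  Together with the counting bound
`choose (m+h-1) h ≤ g(m,h)` this gives the order of magnitude `h^(m-1)` of `g(m,h)` for fixed `m`.
For `m = 3` the lower bound is improved from about `h²/2` to about `3h²/4`: differences of sums of
`⌊h/2⌋` terms fill a hexagon of `3 k (k+1) + 1` distinct residues, `k = ⌊h/2⌋`.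
-/

open Finset

namespace Pool.Agent.Results.MP_462568_co.OrderInH

/-- `A` is a `B_h` set: `h`-term sums (repetition allowed) determine their multiset of terms. -/
def IsBh {G : Type*} [AddCommGroup G] (A : Finset G) (h : ℕ) : Prop :=
  ∀ s t : Multiset G, (∀ x ∈ s, x ∈ A) → (∀ x ∈ t, x ∈ A) → s.card = h → t.card = h →
    s.sum = t.sum → s = t

/-- `σ(ℤ_n, h)`: the largest size of a `B_h` set in the cyclic group of order `n`. -/
noncomputable def sigma (n h : ℕ) : ℕ :=
  sSup {k : ℕ | ∃ A : Finset (ZMod n), IsBh A h ∧ A.card = k}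

/-- `g(m,h)`: the least positive `N` such that `σ(ℤ_n,h) ≥ m` for every `n ≥ N`. -/
noncomputable def g (m h : ℕ) : ℕ := sInf {N : ℕ | 1 ≤ N ∧ ∀ n : ℕ, N ≤ n → m ≤ sigma n h}

theorem digits_unique (h : ℕ) (k : ℕ) : ∀ c d : ℕ → ℕ, (∀ i, c i ≤ h) → (∀ i, d i ≤ h) →
    ∑ i ∈ range k, c i * (h + 1) ^ i = ∑ i ∈ range k, d i * (h + 1) ^ i →
    ∀ i < k, c i = d i := by
  induction k with
  | zero => intro c d _ _ _ i hi; omega
  | succ k ih =>
    intro c d hc hd heq i hi
    rw [Finset.sum_range_succ', Finset.sum_range_succ'] at heq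
    simp only [pow_zero, mul_one] at heq
    have e : ∀ c : ℕ → ℕ, ∑ i ∈ range k, c (i + 1) * (h + 1) ^ (i + 1) =
        (h + 1) * ∑ i ∈ range k, c (i + 1) * (h + 1) ^ i := by
      intro c
      rw [Finset.mul_sum]
      apply Finset.sum_congr rfl
      intro i _
      ring
    rw [e c, e d] at heq
    have h0 : c 0 = d 0 := by
      have h1 := congrArg (fun x => x % (h + 1)) heq
      simp only [Nat.mul_add_mod] at h1
      rwa [Nat.mod_eq_of_lt (by have := hc 0; omega), Nat.mod_eq_of_lt (by have := hd 0; omega)]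
        at h1
    rw [h0] at heq
    have h2 : (h + 1) * ∑ i ∈ range k, c (i + 1) * (h + 1) ^ i =
        (h + 1) * ∑ i ∈ range k, d (i + 1) * (h + 1) ^ i := by omega
    have h3 := Nat.eq_of_mul_eq_mul_left (by omega) h2
    cases i with
    | zero => exact h0
    | succ i =>
      exact ih (fun i => c (i + 1)) (fun i => d (i + 1)) (fun i => hc (i + 1))
        (fun i => hd (i + 1)) h3 i (by omega)

/-- the set `{0, 1, h+1, …, (h+1)^(r-1)}` -/
def A0 (h r : ℕ) : Finset ℕ := insert 0 ((range r).image (fun i => (h + 1) ^ i))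

theorem zero_notMem (h r : ℕ) : 0 ∉ (range r).image (fun i => (h + 1) ^ i) := by
  intro h0
  rw [Finset.mem_image] at h0
  obtain ⟨i, _, hi⟩ := h0
  have : 0 < (h + 1) ^ i := by positivity
  omega

theorem pow_inj {h : ℕ} (hh : 1 ≤ h) : Function.Injective (fun i => (h + 1) ^ i) :=
  Nat.pow_right_injective (by omega)

theorem card_A0 {h : ℕ} (hh : 1 ≤ h) (r : ℕ) : (A0 h r).card = r + 1 := by
  rw [A0, Finset.card_insert_of_notMem (zero_notMem h r),
    Finset.card_image_of_injective _ (pow_inj hh), Finset.card_range]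

theorem sum_A0 {h : ℕ} (hh : 1 ≤ h) (r : ℕ) (s : Multiset ℕ) (hs : ∀ x ∈ s, x ∈ A0 h r) :
    s.sum = ∑ i ∈ range r, s.count ((h + 1) ^ i) * (h + 1) ^ i := by
  rw [Finset.sum_multiset_count_of_subset s (A0 h r) (fun x hx => hs x (by simpa using hx)), A0,
    Finset.sum_insert (zero_notMem h r), Finset.sum_image (fun a _ b _ hab => pow_inj hh hab)]
  simp

theorem bh_nat {h : ℕ} (hh : 1 ≤ h) (r : ℕ) (s t : Multiset ℕ) (hs : ∀ x ∈ s, x ∈ A0 h r)
    (ht : ∀ x ∈ t, x ∈ A0 h r) (hsc : s.card = h) (htc : t.card = h) (hst : s.sum = t.sum) :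
    s = t := by
  rw [sum_A0 hh r s hs, sum_A0 hh r t ht] at hst
  have hd := digits_unique h r (fun i => s.count ((h + 1) ^ i)) (fun i => t.count ((h + 1) ^ i))
    (fun i => hsc ▸ Multiset.count_le_card _ _) (fun i => htc ▸ Multiset.count_le_card _ _) hst
  have hcs := Multiset.sum_count_eq_card hs
  have hct := Multiset.sum_count_eq_card ht
  rw [A0, Finset.sum_insert (zero_notMem h r),
    Finset.sum_image (fun a _ b _ hab => pow_inj hh hab)] at hcs hct
  have hsum : ∑ i ∈ range r, s.count ((h + 1) ^ i) = ∑ i ∈ range r, t.count ((h + 1) ^ i) :=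
    Finset.sum_congr rfl (fun i hi => hd i (Finset.mem_range.mp hi))
  have h0 : s.count 0 = t.count 0 := by omega
  ext a
  by_cases ha : a ∈ A0 h r
  · rw [A0, Finset.mem_insert, Finset.mem_image] at ha
    rcases ha with rfl | ⟨i, hi, rfl⟩
    · exact h0
    · exact hd i (Finset.mem_range.mp hi)
  · rw [Multiset.count_eq_zero_of_notMem (fun h' => ha (hs a h')),
      Multiset.count_eq_zero_of_notMem (fun h' => ha (ht a h'))]

theorem A0_le {h r x : ℕ} (hx : x ∈ A0 h (r + 1)) : x ≤ (h + 1) ^ r := by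
  rw [A0, Finset.mem_insert, Finset.mem_image] at hx
  rcases hx with rfl | ⟨i, hi, rfl⟩
  · exact Nat.zero_le _
  · exact Nat.pow_le_pow_right (by omega) (by have := Finset.mem_range.mp hi; omega)

theorem bh_zmod {h : ℕ} (hh : 1 ≤ h) (r n : ℕ) (hn : h * (h + 1) ^ r + 1 ≤ n) :
    ∃ A : Finset (ZMod n), IsBh A h ∧ A.card = r + 2 := by
  classical
  have : NeZero n := ⟨by omega⟩
  have hlt : ∀ x ∈ A0 h (r + 1), x < n := by
    intro x hx
    have h1 := A0_le hx
    have h2 : 1 * (h + 1) ^ r ≤ h * (h + 1) ^ r := Nat.mul_le_mul_right _ hh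
    omega
  refine ⟨(A0 h (r + 1)).image (fun x : ℕ => (x : ZMod n)), ?_, ?_⟩
  · intro s t hs ht hsc htc hst
    have key : ∀ s : Multiset (ZMod n),
        (∀ x ∈ s, x ∈ (A0 h (r + 1)).image (fun x : ℕ => (x : ZMod n))) →
        ∀ y ∈ s.map ZMod.val, y ∈ A0 h (r + 1) := by
      intro s hs y hy
      rw [Multiset.mem_map] at hy
      obtain ⟨x, hx, rfl⟩ := hy
      have := hs x hx
      rw [Finset.mem_image] at this
      obtain ⟨z, hz, rfl⟩ := this
      rw [ZMod.val_natCast_of_lt (hlt z hz)]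
      exact hz
    have hsumle : ∀ s : Multiset (ZMod n), s.card = h →
        (∀ x ∈ s, x ∈ (A0 h (r + 1)).image (fun x : ℕ => (x : ZMod n))) →
        (s.map ZMod.val).sum < n := by
      intro s hsc hs
      have h1 : (s.map ZMod.val).sum ≤ (s.map ZMod.val).card • ((h + 1) ^ r) :=
        Multiset.sum_le_card_nsmul _ _ (fun y hy => A0_le (key s hs y hy))
      rw [Multiset.card_map, hsc, smul_eq_mul] at h1
      omega
    have hcast : ∀ s : Multiset (ZMod n), s.sum = (((s.map ZMod.val).sum : ℕ) : ZMod n) := by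
      intro s
      rw [Nat.cast_multiset_sum, Multiset.map_map]
      congr 1
      conv_lhs => rw [← Multiset.map_id s]
      apply Multiset.map_congr rfl
      intro x _
      simp
    have hval : (s.map ZMod.val).sum = (t.map ZMod.val).sum := by
      have h1 : (((s.map ZMod.val).sum : ℕ) : ZMod n) = (((t.map ZMod.val).sum : ℕ) : ZMod n) := by
        rw [← hcast, ← hcast, hst]
      have h2 := congrArg ZMod.val h1
      rwa [ZMod.val_natCast_of_lt (hsumle s hsc hs), ZMod.val_natCast_of_lt (hsumle t htc ht)]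
        at h2
    have hm := bh_nat hh (r + 1) _ _ (key s hs) (key t ht) (by simpa using hsc)
      (by simpa using htc) hval
    exact Multiset.map_injective (ZMod.val_injective n) hm
  · rw [Finset.card_image_of_injOn, card_A0 hh]
    intro x hx y hy hxy
    have := congrArg ZMod.val hxy
    simp only at this
    rwa [ZMod.val_natCast_of_lt (hlt x hx), ZMod.val_natCast_of_lt (hlt y hy)] at this

theorem le_sigma {n h k : ℕ} (hn : 1 ≤ n) (A : Finset (ZMod n)) (hA : IsBh A h)
    (hk : A.card = k) : k ≤ sigma n h := by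
  have : NeZero n := ⟨by omega⟩
  refine le_csSup ⟨Fintype.card (ZMod n), ?_⟩ ⟨A, hA, hk⟩
  rintro k ⟨A, _, rfl⟩
  exact Finset.card_le_univ A

theorem mem_gset (r h : ℕ) (hh : 1 ≤ h) : (h * (h + 1) ^ r + 1) ∈
    {N : ℕ | 1 ≤ N ∧ ∀ n : ℕ, N ≤ n → r + 2 ≤ sigma n h} := by
  refine ⟨by omega, ?_⟩
  intro n hn
  obtain ⟨A, hA, hk⟩ := bh_zmod hh r n hn
  exact le_sigma (by omega) A hA hk

/-- The number of `h`-term sums of a `B_h` set of size `m` is `choose (m+h-1) h`. -/
theorem card_bound {n h m : ℕ} (hn : 1 ≤ n) (A : Finset (ZMod n)) (hA : IsBh A h)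
    (hm : m ≤ A.card) : (m + h - 1).choose h ≤ n := by
  classical
  have : NeZero n := ⟨by omega⟩
  obtain ⟨B, hBA, hBm⟩ := Finset.exists_subset_card_eq hm
  have h1 : Fintype.card (Sym {x // x ∈ B} h) = (m + h - 1).choose h := by
    rw [Sym.card_sym_eq_choose, Fintype.card_coe, hBm]
  have h2 : Fintype.card (Sym {x // x ∈ B} h) ≤ Fintype.card (ZMod n) := by
    refine Fintype.card_le_of_injective
      (fun s : Sym {x // x ∈ B} h => ((s : Multiset {x // x ∈ B}).map Subtype.val).sum) ?_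
    intro s t hst
    have hmem : ∀ s : Sym {x // x ∈ B} h, ∀ x ∈ (s : Multiset {x // x ∈ B}).map Subtype.val,
        x ∈ A := by
      intro s x hx
      rw [Multiset.mem_map] at hx
      obtain ⟨y, _, rfl⟩ := hx
      exact hBA y.2
    have h3 := hA _ _ (hmem s) (hmem t) (by simp) (by simp) hst
    exact Sym.coe_injective (Multiset.map_injective Subtype.val_injective h3)
  rw [h1, ZMod.card] at h2
  exact h2

/-- the hexagon `|x|, |y|, |x+y| ≤ k` in `ℤ²` -/
noncomputable def hex (k : ℕ) : Finset (ℤ × ℤ) :=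
  ((Finset.Icc (-(k : ℤ)) k) ×ˢ (Finset.Icc (-(k : ℤ)) k)).filter
    (fun p => -(k : ℤ) ≤ p.1 + p.2 ∧ p.1 + p.2 ≤ k)

/-- three families tiling the hexagon minus the centre -/
theorem hex_card (k : ℕ) : 3 * k * (k + 1) + 1 ≤ (hex k).card := by
  -- injection from (ZMod 3-ish) × rhombus
  let S : Finset (Fin 3 × ℤ × ℤ) := univ ×ˢ ((Finset.Icc (1 : ℤ) k) ×ˢ (Finset.Icc (0 : ℤ) k))
  have hS : S.card = 3 * (k * (k + 1)) := by
    simp [S, Finset.card_product]
  let φ : Fin 3 × ℤ × ℤ → ℤ × ℤ := fun q =>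
    if q.1 = 0 then (q.2.1, -q.2.2) else if q.1 = 1 then (-q.2.2, q.2.2 - q.2.1)
    else (q.2.2 - q.2.1, q.2.1)
  have hφ : (S.image φ).card = S.card := by
    apply Finset.card_image_of_injOn
    rintro ⟨a, x, y⟩ hx ⟨a', x', y'⟩ hx' hxx
    simp only [S, Finset.coe_product, Finset.coe_univ, Set.mem_prod, Finset.mem_coe,
      Finset.mem_Icc, Set.mem_univ, true_and] at hx hx'
    fin_cases a <;> fin_cases a' <;> simp [φ] at hxx ⊢ <;> omega
  have h0 : (0, 0) ∉ S.image φ := by
    intro h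
    rw [Finset.mem_image] at h
    obtain ⟨⟨a, x, y⟩, hx, hxx⟩ := h
    simp only [S, Finset.mem_product, Finset.mem_univ, Finset.mem_Icc, true_and] at hx
    fin_cases a <;> simp [φ] at hxx <;> omega
  have hsub : insert (0, 0) (S.image φ) ⊆ hex k := by
    intro p hp
    rw [Finset.mem_insert, Finset.mem_image] at hp
    rcases hp with rfl | ⟨⟨a, x, y⟩, hx, rfl⟩
    · simp [hex]
    · simp only [S, Finset.mem_product, Finset.mem_univ, Finset.mem_Icc, true_and] at hx
      simp only [hex, Finset.mem_filter, Finset.mem_product, Finset.mem_Icc]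
      fin_cases a <;> simp [φ] <;> omega
  have := Finset.card_le_card hsub
  rw [Finset.card_insert_of_notMem h0, hφ, hS] at this
  nlinarith

/-- A `B_h` set with three elements in a cyclic group of order `n` gives
`n ≥ 3 k (k+1) + 1` with `k = ⌊h/2⌋`. -/
theorem hex_bound {n h : ℕ} (hn : 1 ≤ n) (A : Finset (ZMod n)) (hA : IsBh A h)
    (hm : 3 ≤ A.card) : 3 * (h / 2) * (h / 2 + 1) + 1 ≤ n := by
  classical
  have : NeZero n := ⟨by omega⟩
  obtain ⟨a, ha, b, hb, c, hc, hab, hac, hbc⟩ := Finset.two_lt_card.mp (by omega : 2 < A.card)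
  refine (hex_card (h / 2)).trans ?_
  have h2 : (hex (h / 2)).card ≤ (univ : Finset (ZMod n)).card := by
    refine Finset.card_le_card_of_injOn
      (fun p : ℤ × ℤ => (p.1 : ZMod n) * (a - c) + (p.2 : ZMod n) * (b - c))
      (fun _ _ => Finset.mem_coe.mpr (Finset.mem_univ _)) ?_
    rintro ⟨x, y⟩ hx ⟨x', y'⟩ hx' hxx
    simp only [hex, Finset.coe_filter, Finset.mem_product, Finset.mem_Icc,
      Set.mem_ofPred_eq] at hx hx' hxx
    obtain ⟨X, hX⟩ : ∃ X, X = x - x' := ⟨_, rfl⟩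
    obtain ⟨Y, hY⟩ : ∃ Y, Y = y - y' := ⟨_, rfl⟩
    obtain ⟨Z, hZ⟩ : ∃ Z, Z = -X - Y := ⟨_, rfl⟩
    have hrel : (X : ZMod n) * a + (Y : ZMod n) * b + (Z : ZMod n) * c = 0 := by
      rw [hZ, hX, hY]
      push_cast
      linear_combination hxx
    have hk : (h : ℤ) / 2 * 2 ≤ h := by omega
    have hcastdiv : ((h / 2 : ℕ) : ℤ) = (h : ℤ) / 2 := by simp
    rw [hcastdiv] at hx hx'
    have hP : X.toNat + Y.toNat + Z.toNat ≤ h := by omega
    have hPN : X.toNat + Y.toNat + Z.toNat = (-X).toNat + (-Y).toNat + (-Z).toNat := by omega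
    obtain ⟨e, he⟩ : ∃ e, X.toNat + Y.toNat + (Z.toNat + e) = h := ⟨h - (X.toNat + Y.toNat + Z.toNat), by omega⟩
    have hst := hA
      (Multiset.replicate X.toNat a + Multiset.replicate Y.toNat b +
        Multiset.replicate (Z.toNat + e) c)
      (Multiset.replicate (-X).toNat a + Multiset.replicate (-Y).toNat b +
        Multiset.replicate ((-Z).toNat + e) c)
      (by
        intro w hw
        simp only [Multiset.mem_add, Multiset.mem_replicate] at hw
        rcases hw with (hw | hw) | hw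
        · rw [hw.2]; exact ha
        · rw [hw.2]; exact hb
        · rw [hw.2]; exact hc)
      (by
        intro w hw
        simp only [Multiset.mem_add, Multiset.mem_replicate] at hw
        rcases hw with (hw | hw) | hw
        · rw [hw.2]; exact ha
        · rw [hw.2]; exact hb
        · rw [hw.2]; exact hc)
      (by simp only [Multiset.card_add, Multiset.card_replicate]; omega)
      (by simp only [Multiset.card_add, Multiset.card_replicate]; omega)
      (by
        have hsub : ∀ W : ℤ, ((W.toNat : ℕ) : ZMod n) = ((-W).toNat : ℕ) + (W : ZMod n) := by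
          intro W
          have h1 : (W.toNat : ℤ) = ((-W).toNat : ℤ) + W := by omega
          exact_mod_cast congrArg (fun z : ℤ => (z : ZMod n)) h1
        simp only [Multiset.sum_add, Multiset.sum_replicate, nsmul_eq_mul]
        push_cast
        rw [hsub X, hsub Y, hsub Z]
        linear_combination hrel)
    have c1 := congrArg (Multiset.count a) hst
    have c2 := congrArg (Multiset.count b) hst
    simp only [Multiset.count_add, Multiset.count_replicate, if_neg hab, if_neg hab.symm,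
      if_neg hac.symm, if_neg hbc.symm, if_true, add_zero, zero_add]
      at c1 c2
    have hX0 : X = 0 := by omega
    have hY0 : Y = 0 := by omega
    ext <;> simp only <;> omega
  rwa [Finset.card_univ, ZMod.card] at h2

theorem exists_at_g (m h : ℕ) (hm : 1 ≤ m)
    (hne : {N : ℕ | 1 ≤ N ∧ ∀ n : ℕ, N ≤ n → m ≤ sigma n h}.Nonempty) :
    1 ≤ g m h ∧ ∃ A : Finset (ZMod (g m h)), IsBh A h ∧ m ≤ A.card := by
  have h1 := Nat.sInf_mem hne
  have hg : 1 ≤ g m h := h1.1
  have h2 := h1.2 (g m h) le_rfl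
  have : NeZero (g m h) := ⟨by omega⟩
  have hne2 : {k : ℕ | ∃ A : Finset (ZMod (g m h)), IsBh A h ∧ A.card = k}.Nonempty := by
    by_contra hemp
    rw [Set.not_nonempty_iff_eq_empty] at hemp
    rw [sigma, hemp] at h2
    simp at h2
    omega
  have hb : BddAbove {k : ℕ | ∃ A : Finset (ZMod (g m h)), IsBh A h ∧ A.card = k} := by
    refine ⟨Fintype.card (ZMod (g m h)), ?_⟩
    rintro k ⟨A, _, rfl⟩
    exact Finset.card_le_univ A
  obtain ⟨A, hA, hk⟩ := Nat.sSup_mem hne2 hb
  exact ⟨hg, A, hA, by rw [hk]; exact h2⟩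

theorem lower (m h : ℕ) (hm : 1 ≤ m)
    (hne : {N : ℕ | 1 ≤ N ∧ ∀ n : ℕ, N ≤ n → m ≤ sigma n h}.Nonempty) :
    (m + h - 1).choose h ≤ g m h := by
  obtain ⟨hg, A, hA, hk⟩ := exists_at_g m h hm hne
  exact card_bound hg A hA hk

theorem lower3 (h : ℕ)
    (hne : {N : ℕ | 1 ≤ N ∧ ∀ n : ℕ, N ≤ n → 3 ≤ sigma n h}.Nonempty) :
    3 * (h / 2) * (h / 2 + 1) + 1 ≤ g 3 h := by
  obtain ⟨hg, A, hA, hk⟩ := exists_at_g 3 h (by omega) hne
  exact hex_bound hg A hA hk

/-- For all `m ≥ 2`, `h ≥ 1`: `g(m,h) ≤ h (h+1)^(m-2) + 1`, and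
`h^(m-1) / (m-1)! ≤ g(m,h) ≤ 2^(m-1) h^(m-1)`; for `m = 3` and `k = ⌊h/2⌋`,
`3 k (k+1) + 1 ≤ g(3,h) ≤ h (h+1) + 1`. -/
theorem result (m h : ℕ) (hm : 2 ≤ m) (hh : 1 ≤ h) :
    g m h ≤ h * (h + 1) ^ (m - 2) + 1 ∧
    (h ^ (m - 1) ≤ (m - 1).factorial * g m h ∧ g m h ≤ 2 ^ (m - 1) * h ^ (m - 1)) ∧
    (3 * (h / 2) * (h / 2 + 1) + 1 ≤ g 3 h ∧ g 3 h ≤ h * (h + 1) + 1) := by
  have hmem3 := mem_gset 1 h hh
  refine (fun X => ⟨X.1, ⟨X.2.1, X.2.2⟩, lower3 h ⟨_, hmem3⟩, by
    have hx : g 3 h ≤ h * (h + 1) ^ 1 + 1 := Nat.sInf_le hmem3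
    rwa [pow_one] at hx⟩ :
    (g m h ≤ h * (h + 1) ^ (m - 2) + 1 ∧ h ^ (m - 1) ≤ (m - 1).factorial * g m h ∧
      g m h ≤ 2 ^ (m - 1) * h ^ (m - 1)) → _) ?_
  obtain ⟨r, rfl⟩ : ∃ r, m = r + 2 := ⟨m - 2, by omega⟩
  have hmem := mem_gset r h hh
  have h1 := lower (r + 2) h (by omega) ⟨_, hmem⟩
  have h2 : g (r + 2) h ≤ h * (h + 1) ^ r + 1 := Nat.sInf_le hmem
  have e1 : r + 2 - 2 = r := by omega
  have e2 : r + 2 - 1 = r + 1 := by omega
  rw [e1, e2]
  refine ⟨h2, ?_, ?_⟩
  · have h3 : (r + 2 + h - 1).choose h = (h + (r + 1)).choose (r + 1) := by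
      rw [show r + 2 + h - 1 = h + (r + 1) by omega]
      exact Nat.choose_symm_add
    rw [h3] at h1
    have h4 : h ^ (r + 1) ≤ (h + (r + 1)).descFactorial (r + 1) := by
      refine le_trans (Nat.pow_le_pow_left ?_ _) (Nat.pow_sub_le_descFactorial _ _)
      omega
    rw [Nat.descFactorial_eq_factorial_mul_choose] at h4
    exact h4.trans (Nat.mul_le_mul_left _ h1)
  · refine h2.trans ?_
    have h5 : (h + 1) ^ r ≤ (2 * h) ^ r := Nat.pow_le_pow_left (by omega) r
    have h6 : 1 ≤ h * (2 * h) ^ r := Nat.mul_pos (by omega) (by positivity)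
    calc h * (h + 1) ^ r + 1 ≤ h * (2 * h) ^ r + h * (2 * h) ^ r :=
          Nat.add_le_add (Nat.mul_le_mul_left h h5) h6
      _ = 2 ^ (r + 1) * h ^ (r + 1) := by rw [mul_pow]; ring

end Pool.Agent.Results.MP_462568_co.OrderInH
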